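import Mathlib

/-!
# The conjectured Turán number of the expanded clique with bounded matching number fails

The problem asks whether for `ℓ ≥ r ≥ 3`, `s ≥ C(ℓ, 2)` and large `n` the maximum number of edges of
an `r`-graph on `n` vertices without an expanded clique `H_{ℓ+1}^r` and without `s + 1` disjoint edges
is `s · t_{r-1}(n - s, ℓ - 1)`.

Take `a = C(ℓ, 2)` special vertices and ALL `r`-sets with exactly one special vertex. A copy of
`H_{ℓ+1}^r` would need `C(ℓ + 1, 2)` special vertices if its core has none, and `1 + C(ℓ, 2)` if its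
core has one (two are impossible), so there is none; every edge has a special vertex, so there are at
most `a ≤ s` disjoint edges. This `r`-graph has at least `C(ℓ, 2) · C(n - a, r - 1)` edges, for large
`n` more than `s · t_{r-1}(n - s, ℓ - 1)` whenever
`s (ℓ-1)(ℓ-2)⋯(ℓ-r+1) < C(ℓ, 2) (ℓ-1)^(r-1)`, in particular for all `s` with `C(ℓ, 2) ≤ s ≤ ℓ²/2`.
-/

set_option autoImplicit false

open Finset Filter

namespace Pool.Agent.Results.MP_f4e9fb_co.RangeFailure

/-- All edges have `r` vertices. -/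
def IsUniform {n : ℕ} (r : ℕ) (E : Finset (Finset (Fin n))) : Prop := ∀ e ∈ E, e.card = r

/-- `E` contains a copy of the expanded clique `H_k^r`: `k` core vertices `c i`, and for each pair
`i < j` a set `W i j` of `r - 2` further vertices, the sets `W i j` being pairwise disjoint and
disjoint from the core, such that `{c i, c j} ∪ W i j` is an edge. -/
def HasExpandedClique {n : ℕ} (r k : ℕ) (E : Finset (Finset (Fin n))) : Prop :=
  ∃ (c : Fin k → Fin n) (W : Fin k → Fin k → Finset (Fin n)), Function.Injective c ∧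
    (∀ i j, i < j → (W i j).card = r - 2 ∧ (∀ a, c a ∉ W i j) ∧
      ({c i, c j} : Finset (Fin n)) ∪ W i j ∈ E) ∧
    (∀ i j i' j', i < j → i' < j' → (i, j) ≠ (i', j') → Disjoint (W i j) (W i' j'))

/-- `E` contains `k` pairwise disjoint edges. -/
def HasMatching {n : ℕ} (k : ℕ) (E : Finset (Finset (Fin n))) : Prop :=
  ∃ M : Fin k → Finset (Fin n), (∀ i, M i ∈ E) ∧ ∀ i j, i ≠ j → Disjoint (M i) (M j)

/-- `ex_r(n, {H_{ℓ+1}^r, M_{s+1}^r})`. -/
noncomputable def ex (n r l s : ℕ) : ℕ :=
  sSup {k | ∃ E : Finset (Finset (Fin n)), IsUniform r E ∧ ¬ HasExpandedClique r (l + 1) E ∧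
    ¬ HasMatching (s + 1) E ∧ E.card = k}

/-- `t_k(m, q)`: the number of `k`-subsets of an `m`-set meeting every part of a balanced partition
into `q` parts (the residue classes modulo `q`) in at most one vertex. -/
def t (k m q : ℕ) : ℕ :=
  (((univ : Finset (Fin m)).powersetCard k).filter
    (fun S => ∀ x ∈ S, ∀ y ∈ S, x.val % q = y.val % q → x = y)).card

variable {n : ℕ}

lemma le_ex {r l s : ℕ} (E : Finset (Finset (Fin n))) (h1 : IsUniform r E)
    (h2 : ¬ HasExpandedClique r (l + 1) E) (h3 : ¬ HasMatching (s + 1) E) :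
    E.card ≤ ex n r l s := by
  apply le_csSup
  · refine ⟨(univ : Finset (Finset (Fin n))).card, ?_⟩
    rintro k ⟨F, _, _, _, rfl⟩
    exact Finset.card_le_card (Finset.subset_univ F)
  · exact ⟨E, h1, h2, h3, rfl⟩

/-- The special vertices. -/
def sp (a : ℕ) : Finset (Fin n) := univ.filter (fun v => v.val < a)

/-- All `r`-sets with exactly one vertex below `a`. -/
def E (n a r : ℕ) : Finset (Finset (Fin n)) :=
  ((univ : Finset (Fin n)).powersetCard r).filter (fun e => (e.filter (fun v => v.val < a)).card = 1)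

lemma mem_sp {a : ℕ} {v : Fin n} : v ∈ sp a ↔ v.val < a := by simp [sp]

lemma card_sp {a : ℕ} (h : a ≤ n) : (sp a : Finset (Fin n)).card = a := by
  unfold sp
  rw [Fin.card_filter_val_lt]
  exact min_eq_right h

lemma uniform (a r : ℕ) : IsUniform r (E n a r) := by
  intro e he
  exact (mem_powersetCard.mp (mem_filter.mp he).1).2

lemma one_small {a r : ℕ} {e} (he : e ∈ E n a r) :
    ∃ x ∈ e, x.val < a ∧ ∀ y ∈ e, y.val < a → y = x := by
  obtain ⟨x, hx⟩ := Finset.card_eq_one.mp (mem_filter.mp he).2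
  have h1 : x ∈ e.filter (fun v => v.val < a) := by rw [hx]; simp
  refine ⟨x, (mem_filter.mp h1).1, (mem_filter.mp h1).2, fun y hy hlt => ?_⟩
  have h2 : y ∈ e.filter (fun v => v.val < a) := mem_filter.mpr ⟨hy, hlt⟩
  rw [hx] at h2
  exact mem_singleton.mp h2

lemma no_matching {a r s : ℕ} (h : a ≤ s) : ¬ HasMatching (s + 1) (E n a r) := by
  rintro ⟨M, hM, hdis⟩
  choose f hf hlt _ using fun i => one_small (hM i)
  have hinj : Function.Injective (fun i => (⟨(f i).val, hlt i⟩ : Fin a)) := by
    intro i j hij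
    by_contra hne
    have h1 : f i = f j := Fin.ext (by simpa using hij)
    exact (Finset.disjoint_left.mp (hdis i j hne)) (hf i) (h1 ▸ hf j)
  have := Fintype.card_le_of_injective _ hinj
  simp at this
  omega

lemma card_E {a r : ℕ} (h : a ≤ n) (hr : 1 ≤ r) : a * (n - a).choose (r - 1) ≤ (E n a r).card := by
  have hc : (univ.filter (fun v : Fin n => ¬ v.val < a)).card = n - a := by
    have h1 := Finset.card_filter_add_card_filter_not (s := (univ : Finset (Fin n)))
      (fun v : Fin n => v.val < a)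
    have h2 := card_sp (n := n) h
    unfold sp at h2
    rw [h2] at h1
    simp at h1
    simp
    omega
  have hD : ((sp a : Finset (Fin n)) ×ˢ ((univ.filter (fun v : Fin n => ¬ v.val < a)).powersetCard
      (r - 1))).card = a * (n - a).choose (r - 1) := by
    rw [card_product, card_sp h, card_powersetCard, hc]
  rw [← hD]
  have key : ∀ x : Fin n, x.val < a → ∀ S : Finset (Fin n),
      S ⊆ univ.filter (fun v : Fin n => ¬ v.val < a) →
      (insert x S).filter (fun v => v.val < a) = {x} ∧
        (insert x S).filter (fun v => ¬ v.val < a) = S ∧ x ∉ S := by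
    intro x hx S hS
    have h0 : ∀ y ∈ S, ¬ y.val < a := fun y hy => (mem_filter.mp (hS hy)).2
    refine ⟨?_, ?_, fun hxS => h0 x hxS hx⟩
    · ext y
      rw [mem_filter, mem_insert, mem_singleton]
      constructor
      · rintro ⟨rfl | h1, h2⟩
        · rfl
        · exact absurd h2 (h0 y h1)
      · rintro rfl
        exact ⟨Or.inl rfl, hx⟩
    · ext y
      rw [mem_filter, mem_insert]
      constructor
      · rintro ⟨rfl | h1, h2⟩
        · exact absurd hx h2
        · exact h1
      · intro hy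
        exact ⟨Or.inr hy, h0 y hy⟩
  apply Finset.card_le_card_of_injOn (fun p => insert p.1 p.2)
  · rintro ⟨x, S⟩ hp
    rw [mem_coe, mem_product, mem_powersetCard] at hp
    obtain ⟨h1, h2, h3⟩ := hp
    have h4 := key x (mem_sp.mp h1) S h2
    rw [mem_coe, E, mem_filter, mem_powersetCard]
    refine ⟨⟨subset_univ _, ?_⟩, ?_⟩
    · show (insert x S).card = r
      rw [card_insert_of_notMem h4.2.2]
      have h5 : S.card = r - 1 := h3
      omega
    · show ((insert x S).filter (fun v => v.val < a)).card = 1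
      rw [h4.1]
      simp
  · rintro ⟨x, S⟩ hp ⟨y, T⟩ hq hpq
    rw [mem_coe, mem_product, mem_powersetCard] at hp hq
    have h1 := key x (mem_sp.mp hp.1) S hp.2.1
    have h2 := key y (mem_sp.mp hq.1) T hq.2.1
    have hpq' : insert x S = insert y T := hpq
    rw [hpq'] at h1
    have e1 : ({x} : Finset (Fin n)) = {y} := h1.1.symm.trans h2.1
    have e2 : S = T := h1.2.1.symm.trans h2.2.1
    rw [Finset.singleton_inj] at e1
    rw [e1, e2]

lemma no_clique {l r a : ℕ} (hl : 1 ≤ l) (ha : a ≤ l.choose 2) :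
    ¬ HasExpandedClique r (l + 1) (E n a r) := by
  rintro ⟨c, W, hc, hW, hdis⟩
  have hsp : ∀ i j : Fin (l + 1), i < j → ∃ x ∈ ({c i, c j} : Finset (Fin n)) ∪ W i j,
      x.val < a ∧ ∀ y ∈ ({c i, c j} : Finset (Fin n)) ∪ W i j, y.val < a → y = x :=
    fun i j hij => one_small (hW i j hij).2.2
  have hone : ∀ i j : Fin (l + 1), (c i).val < a → (c j).val < a → i = j := by
    have h0 : ∀ i j : Fin (l + 1), i < j → (c i).val < a → (c j).val < a → False := by
      intro i j hij h1 h2
      obtain ⟨x, _, _, hu⟩ := hsp i j hij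
      have e1 := hu (c i) (by simp) h1
      have e2 := hu (c j) (by simp) h2
      exact absurd (hc (e1.trans e2.symm)) (ne_of_lt hij)
    intro i j h1 h2
    rcases lt_trichotomy i j with h | h | h
    · exact (h0 i j h h1 h2).elim
    · exact h
    · exact (h0 j i h h2 h1).elim
  -- the number of special vertices
  have hsc : (sp a : Finset (Fin n)).card ≤ a := by
    unfold sp
    rw [Fin.card_filter_val_lt]
    exact min_le_right _ _
  -- the core vertices that are not special
  set B : Finset (Fin (l + 1)) := univ.filter (fun i => ¬ (c i).val < a) with hB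
  have hpair : ∀ p ∈ B.powersetCard 2, ∃ x : Fin n, x.val < a ∧ ∃ i j : Fin (l + 1), i < j ∧
      p = {i, j} ∧ x ∈ W i j := by
    intro p hp
    rw [mem_powersetCard] at hp
    obtain ⟨i, j, hij, rfl⟩ := Finset.card_eq_two.mp hp.2
    have hi : ¬ (c i).val < a := (mem_filter.mp (hp.1 (by simp : i ∈ ({i, j} : Finset _)))).2
    have hj : ¬ (c j).val < a := (mem_filter.mp (hp.1 (by simp : j ∈ ({i, j} : Finset _)))).2
    have h0 : ∀ u v : Fin (l + 1), u < v → ¬ (c u).val < a → ¬ (c v).val < a →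
        ∃ x : Fin n, x.val < a ∧ x ∈ W u v := by
      intro u v huv hu hv
      obtain ⟨x, hx, hlt, _⟩ := hsp u v huv
      rw [mem_union, mem_insert, mem_singleton] at hx
      rcases hx with (rfl | rfl) | hx
      · exact absurd hlt hu
      · exact absurd hlt hv
      · exact ⟨x, hlt, hx⟩
    rcases lt_or_gt_of_ne hij with h | h
    · obtain ⟨x, h1, h2⟩ := h0 i j h hi hj
      exact ⟨x, h1, i, j, h, rfl, h2⟩
    · obtain ⟨x, h1, h2⟩ := h0 j i h hj hi
      exact ⟨x, h1, j, i, h, Finset.pair_comm _ _, h2⟩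
  have hn : 0 < n := by
    have := (c ⟨0, by omega⟩).isLt
    omega
  have : Nonempty (Fin n) := ⟨⟨0, hn⟩⟩
  choose! f hf1 hf2 using hpair
  have hinj : Set.InjOn f (B.powersetCard 2 : Finset (Finset (Fin (l + 1)))) := by
    intro p hp q hq hpq
    obtain ⟨i, j, hij, hpe, hx⟩ := hf2 p hp
    obtain ⟨i', j', hij', hqe, hy⟩ := hf2 q hq
    by_contra hne
    have hne' : (i, j) ≠ (i', j') := by
      intro h
      rw [Prod.mk.injEq] at h
      apply hne
      rw [hpe, hqe, h.1, h.2]
    rw [hpq] at hx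
    exact Finset.disjoint_left.mp (hdis i j i' j' hij hij' hne') hx hy
  by_cases hex : ∃ b : Fin (l + 1), (c b).val < a
  · obtain ⟨b, hb⟩ := hex
    have hBe : B = univ.erase b := by
      ext i
      rw [hB, mem_filter, mem_erase]
      constructor
      · rintro ⟨_, h1⟩
        refine ⟨?_, mem_univ _⟩
        rintro rfl
        exact h1 hb
      · rintro ⟨h1, _⟩
        exact ⟨mem_univ _, fun h2 => h1 (hone i b h2 hb)⟩
    have hBc : B.card = l := by
      rw [hBe, card_erase_of_mem (mem_univ _)]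
      simp
    have hle : (B.powersetCard 2).card ≤ ((sp a : Finset (Fin n)).erase (c b)).card := by
      apply Finset.card_le_card_of_injOn f _ hinj
      intro p hp
      obtain ⟨i, j, hij, _, hx⟩ := hf2 p hp
      rw [mem_coe, mem_erase, mem_sp]
      refine ⟨?_, hf1 p hp⟩
      intro h
      rw [h] at hx
      exact (hW i j hij).2.1 b hx
    rw [card_powersetCard, hBc, card_erase_of_mem (mem_sp.mpr hb)] at hle
    have : 0 < (sp a : Finset (Fin n)).card := card_pos.mpr ⟨c b, mem_sp.mpr hb⟩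
    omega
  · push Not at hex
    have hBe : B = univ := by
      ext i
      rw [hB, mem_filter]
      have := hex i
      simp
      exact this
    have hle : (B.powersetCard 2).card ≤ (sp a : Finset (Fin n)).card := by
      apply Finset.card_le_card_of_injOn f _ hinj
      intro p hp
      rw [mem_coe, mem_sp]
      exact hf1 p hp
    rw [card_powersetCard, hBe] at hle
    simp only [card_univ, Fintype.card_fin] at hle
    have h2 : (l + 1).choose 2 = l + l.choose 2 := by
      rw [Nat.choose_succ_succ' l 1]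
      simp
    omega


/-- `t_k(m, q) ≤ C(q, k) (m / q + 1)^k`. -/
lemma t_le (k m q : ℕ) (hq : 1 ≤ q) : t k m q ≤ q.choose k * (m / q + 1) ^ k := by
  classical
  set D : Finset (Σ R : Finset ℕ, ((ρ : ℕ) → ρ ∈ R → ℕ)) :=
    ((range q).powersetCard k).sigma (fun R => R.pi (fun _ => range (m / q + 1))) with hD
  have hDc : D.card = q.choose k * (m / q + 1) ^ k := by
    rw [hD, card_sigma]
    have : ∀ R ∈ (range q).powersetCard k,
        (R.pi (fun _ => range (m / q + 1))).card = (m / q + 1) ^ k := by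
      intro R hR
      rw [card_pi, prod_const, card_range, (mem_powersetCard.mp hR).2]
    rw [sum_congr rfl this, sum_const, card_powersetCard, card_range, smul_eq_mul]
  rw [← hDc]
  unfold t
  apply Finset.card_le_card_of_surjOn
    (fun p => univ.filter (fun x : Fin m => ∃ h : x.val % q ∈ p.1, x.val / q = p.2 (x.val % q) h))
  intro S hS
  rw [mem_coe, mem_filter, mem_powersetCard] at hS
  obtain ⟨⟨_, hc⟩, hres⟩ := hS
  have hex : ∀ ρ, ∀ _ : ρ ∈ S.image (fun x => x.val % q), ∃ x ∈ S, x.val % q = ρ := by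
    intro ρ hρ
    exact mem_image.mp hρ
  refine ⟨⟨S.image (fun x => x.val % q), fun ρ hρ => (hex ρ hρ).choose.val / q⟩, ?_, ?_⟩
  · rw [mem_coe, hD, mem_sigma, mem_powersetCard, Finset.mem_pi]
    refine ⟨⟨?_, ?_⟩, ?_⟩
    · intro ρ hρ
      obtain ⟨x, _, rfl⟩ := mem_image.mp hρ
      exact mem_range.mpr (Nat.mod_lt _ hq)
    · show (S.image (fun x => x.val % q)).card = k
      rw [card_image_of_injOn, hc]
      intro x hx y hy hxy
      exact hres x hx y hy hxy
    · intro ρ hρ
      rw [mem_range]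
      have h1 := (hex ρ hρ).choose.isLt
      have h2 : (hex ρ hρ).choose.val / q ≤ m / q := Nat.div_le_div_right h1.le
      exact Nat.lt_succ_of_le h2
  · ext x
    rw [mem_filter]
    constructor
    · rintro ⟨_, h, hx⟩
      have h1 := (hex _ h).choose_spec
      have h2 : x.val / q = (hex _ h).choose.val / q := hx
      have h3 : x = (hex _ h).choose := by
        apply Fin.ext
        have e1 := Nat.div_add_mod x.val q
        have e2 := Nat.div_add_mod (hex _ h).choose.val q
        rw [← h2, h1.2] at e2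
        exact e1.symm.trans e2
      rw [h3]
      exact h1.1
    · intro hx
      have h : x.val % q ∈ S.image (fun x => x.val % q) := mem_image.mpr ⟨x, hx, rfl⟩
      refine ⟨mem_univ _, h, ?_⟩
      have h1 := (hex _ h).choose_spec
      have h2 : (hex _ h).choose = x := hres _ h1.1 _ hx h1.2
      show x.val / q = (hex _ h).choose.val / q
      rw [h2]

/-- Eventual comparison. -/
lemma eventually_lt (α β k q c : ℕ) (h : α < β) :
    ∃ n0 : ℕ, ∀ n : ℕ, n0 ≤ n → α * (n + q) ^ k < β * (n - c) ^ k := by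
  have ht : Tendsto (fun n : ℕ => (β : ℝ) * (1 - (c : ℝ) / n) ^ k - α * (1 + (q : ℝ) / n) ^ k) atTop
      (nhds ((β : ℝ) * (1 - 0) ^ k - α * (1 + 0) ^ k)) := by
    have h1 := tendsto_const_div_atTop_nhds_zero_nat (c : ℝ)
    have h2 := tendsto_const_div_atTop_nhds_zero_nat (q : ℝ)
    exact (((tendsto_const_nhds.sub h1).pow k).const_mul _).sub
      (((tendsto_const_nhds.add h2).pow k).const_mul _)
  have hpos : (0 : ℝ) < (β : ℝ) * (1 - 0) ^ k - α * (1 + 0) ^ k := by
    simp
    exact_mod_cast h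
  obtain ⟨n1, hn1⟩ := eventually_atTop.mp (ht.eventually_const_lt hpos)
  refine ⟨max n1 (c + 1), fun n hn => ?_⟩
  have h1 := hn1 n (le_trans (le_max_left _ _) hn)
  have h2 : c + 1 ≤ n := le_trans (le_max_right _ _) hn
  have hn0 : (0 : ℝ) < n := by
    have : 0 < n := by omega
    exact_mod_cast this
  have h3 : (0 : ℝ) < ((β : ℝ) * (1 - (c : ℝ) / n) ^ k - α * (1 + (q : ℝ) / n) ^ k) * (n : ℝ) ^ k :=
    mul_pos h1 (pow_pos hn0 k)
  have h4 : ((β : ℝ) * (1 - (c : ℝ) / n) ^ k - α * (1 + (q : ℝ) / n) ^ k) * (n : ℝ) ^ k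
      = β * ((n : ℝ) - c) ^ k - α * ((n : ℝ) + q) ^ k := by
    rw [sub_mul, mul_assoc, mul_assoc, ← mul_pow, ← mul_pow]
    congr 3
    · field_simp
    · field_simp
  rw [h4] at h3
  have h5 : ((n - c : ℕ) : ℝ) = (n : ℝ) - c := by
    rw [Nat.cast_sub (by omega)]
  have h6 : (α : ℝ) * ((n : ℝ) + q) ^ k < β * ((n - c : ℕ) : ℝ) ^ k := by
    rw [h5]
    linarith
  exact_mod_cast h6

/-- The comparison of the two constructions. -/
lemma main_lt (a s q k : ℕ) (hq : 1 ≤ q) (h : s * q.descFactorial k < a * q ^ k) :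
    ∃ n0 : ℕ, ∀ n : ℕ, n0 ≤ n → s * t k (n - s) q < a * (n - a).choose k := by
  obtain ⟨n0, hn0⟩ := eventually_lt (s * q.descFactorial k) (a * q ^ k) k q (a + k) h
  refine ⟨n0, fun n hn => ?_⟩
  have h1 := hn0 n hn
  have h2 := t_le k (n - s) q hq
  have hfac : 0 < k.factorial := Nat.factorial_pos k
  have hqk : 0 < q ^ k := by positivity
  -- upper bound
  have h3 : k.factorial * q ^ k * (s * t k (n - s) q) ≤ s * q.descFactorial k * (n + q) ^ k := by
    have e1 : q * ((n - s) / q + 1) ≤ n + q := by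
      have := Nat.mul_div_le (n - s) q
      rw [Nat.mul_add]
      omega
    have e2 : (q * ((n - s) / q + 1)) ^ k ≤ (n + q) ^ k := Nat.pow_le_pow_left e1 k
    calc k.factorial * q ^ k * (s * t k (n - s) q)
        ≤ k.factorial * q ^ k * (s * (q.choose k * ((n - s) / q + 1) ^ k)) := by gcongr
      _ = s * (k.factorial * q.choose k) * (q * ((n - s) / q + 1)) ^ k := by
          rw [mul_pow]; ring
      _ = s * q.descFactorial k * (q * ((n - s) / q + 1)) ^ k := by
          rw [← Nat.descFactorial_eq_factorial_mul_choose]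
      _ ≤ s * q.descFactorial k * (n + q) ^ k := by gcongr
  -- lower bound
  have h4 : a * q ^ k * (n - (a + k)) ^ k ≤ k.factorial * q ^ k * (a * (n - a).choose k) := by
    have e1 : (n - a + 1 - k) ^ k ≤ (n - a).descFactorial k := Nat.pow_sub_le_descFactorial _ _
    have e2 : (n - (a + k)) ^ k ≤ (n - a + 1 - k) ^ k := Nat.pow_le_pow_left (by omega) k
    calc a * q ^ k * (n - (a + k)) ^ k ≤ a * q ^ k * (n - a).descFactorial k := by
          gcongr; exact e2.trans e1
      _ = k.factorial * q ^ k * (a * (n - a).choose k) := by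
          rw [Nat.descFactorial_eq_factorial_mul_choose]; ring
  have h5 : k.factorial * q ^ k * (s * t k (n - s) q) < k.factorial * q ^ k * (a * (n - a).choose k) :=
    lt_of_le_of_lt h3 (lt_of_lt_of_le h1 h4)
  exact lt_of_mul_lt_mul_left h5 (Nat.zero_le _)

/-- `q (q-1) ⋯ (q-j-1) ≤ (q-1) q^(j+1)`. -/
lemma desc_le (q j : ℕ) : q.descFactorial (j + 2) ≤ (q - 1) * q ^ (j + 1) := by
  induction j with
  | zero => simp [Nat.descFactorial_succ]
  | succ j ih =>
    rw [Nat.descFactorial_succ, pow_succ]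
    calc (q - (j + 2)) * q.descFactorial (j + 2) ≤ q * ((q - 1) * q ^ (j + 1)) := by
          gcongr; omega
      _ = (q - 1) * (q ^ (j + 1) * q) := by ring

lemma range_ok (l r s : ℕ) (hr : 3 ≤ r) (hl : r ≤ l) (hs : 2 * s ≤ l ^ 2) :
    s * (l - 1).descFactorial (r - 1) < l.choose 2 * (l - 1) ^ (r - 1) := by
  obtain ⟨j, rfl⟩ : ∃ j, r = j + 3 := ⟨r - 3, by omega⟩
  obtain ⟨q, rfl⟩ : ∃ q, l = q + 2 := ⟨l - 2, by omega⟩
  have e1 : j + 3 - 1 = j + 2 := by omega
  have e2 : q + 2 - 1 = q + 1 := by omega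
  rw [e1, e2]
  have h1 := desc_le (q + 1) j
  have h2 : q + 1 - 1 = q := by omega
  rw [h2] at h1
  have h3 : 2 * (q + 2).choose 2 = (q + 2) * (q + 1) := by
    have := Nat.triangle_succ (q + 1)
    rw [Nat.choose_two_right]
    have h5 : q + 2 - 1 = q + 1 := by omega
    rw [h5]
    have h6 : 2 ∣ (q + 2) * (q + 1) := by
      have := Nat.even_mul_succ_self (q + 1)
      rw [mul_comm]
      exact this.two_dvd
    omega
  have h4 : 2 * (s * (q + 1).descFactorial (j + 2)) < 2 * ((q + 2).choose 2 * (q + 1) ^ (j + 2)) := by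
    have hp : 0 < (q + 1) ^ (j + 1) := by positivity
    calc 2 * (s * (q + 1).descFactorial (j + 2)) ≤ 2 * (s * (q * (q + 1) ^ (j + 1))) := by gcongr
      _ = (2 * s) * q * (q + 1) ^ (j + 1) := by ring
      _ ≤ (q + 2) ^ 2 * q * (q + 1) ^ (j + 1) := by gcongr
      _ < (q + 2) * (q + 1) * (q + 1) * (q + 1) ^ (j + 1) := by
          apply Nat.mul_lt_mul_of_pos_right _ hp
          nlinarith
      _ = (2 * (q + 2).choose 2) * (q + 1) ^ (j + 2) := by rw [h3]; ring
      _ = 2 * ((q + 2).choose 2 * (q + 1) ^ (j + 2)) := by ring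
  omega

theorem main (l r s : ℕ) (hr : 3 ≤ r) (hl : r ≤ l) (hs : l.choose 2 ≤ s)
    (h : s * (l - 1).descFactorial (r - 1) < l.choose 2 * (l - 1) ^ (r - 1)) :
    ∃ n0 : ℕ, ∀ n : ℕ, n0 ≤ n → s * t (r - 1) (n - s) (l - 1) < ex n r l s := by
  obtain ⟨n0, hn0⟩ := main_lt (l.choose 2) s (l - 1) (r - 1) (by omega) h
  refine ⟨max n0 (l.choose 2), fun n hn => ?_⟩
  have h1 := hn0 n (le_trans (le_max_left _ _) hn)
  have h2 : l.choose 2 ≤ n := le_trans (le_max_right _ _) hn
  have h3 := card_E (n := n) (r := r) h2 (by omega)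
  have h4 := le_ex (E n (l.choose 2) r) (uniform _ _) (no_clique (by omega) le_rfl)
    (no_matching hs)
  exact lt_of_lt_of_le h1 (h3.trans h4)

/-- For all `ℓ ≥ r ≥ 3` and all `s ≥ C(ℓ, 2)` with `s ≤ ℓ²/2`, or more generally with
`s (ℓ-1)(ℓ-2)⋯(ℓ-r+1) < C(ℓ, 2) (ℓ-1)^(r-1)`, the conjectured value is too small for all large
`n`. -/
theorem result : ∀ l r s : ℕ, 3 ≤ r → r ≤ l → l.choose 2 ≤ s →
    (2 * s ≤ l ^ 2 ∨ s * (l - 1).descFactorial (r - 1) < l.choose 2 * (l - 1) ^ (r - 1)) →
    ∃ n0 : ℕ, ∀ n : ℕ, n0 ≤ n → s * t (r - 1) (n - s) (l - 1) < ex n r l s := by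
  intro l r s hr hl hs h
  rcases h with h | h
  · exact main l r s hr hl hs (range_ok l r s hr hl h)
  · exact main l r s hr hl hs h

end Pool.Agent.Results.MP_f4e9fb_co.RangeFailure
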